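import Pool.Agent.CDCut.MainTwo

/-!
The small sides of the cyclic 4-edge-cuts of a smallest counterexample to the circuit double cover
conjecture have the same number of vertices and are pairwise disjoint.
-/

set_option autoImplicit false

namespace Pool.Agent.Results.MP_b1bfa0_co.DisjointSmallSides

open CDCut

/-- Let `G` be a smallest counterexample to the circuit double cover conjecture, and let `X`, `Y`
be sets of at most `|V(G)| / 2` vertices such that `δ(X)` and `δ(Y)` are cyclic 4-edge-cuts. Then
`|X| = |Y|`, and `X = Y` or `X` and `Y` are disjoint. -/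
theorem result {V E : Type} [Fintype V] [Fintype E] (G : MGraph V E)
    (hG : G.IsSmallestCounterexample) (X Y : Finset V) (hX : G.IsCyclicFourCut X)
    (hY : G.IsCyclicFourCut Y) (hX2 : 2 * X.card ≤ Fintype.card V)
    (hY2 : 2 * Y.card ≤ Fintype.card V) :
    X.card = Y.card ∧ (X = Y ∨ Disjoint X Y) :=
  G.main_two hG X Y hX hY hX2 hY2

end Pool.Agent.Results.MP_b1bfa0_co.DisjointSmallSides
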