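import Pool.Agent.CDCut.ShareOne

/-!
Two different cyclic 4-edge-cuts of a smallest counterexample to the circuit double cover
conjecture have at most one common edge.
-/

set_option autoImplicit false

namespace Pool.Agent.Results.MP_b1bfa0_co.ShareOneEdge

open CDCut

open scoped Classical

/-- Let `G` be a smallest counterexample to the circuit double cover conjecture. Two different
cyclic 4-edge-cuts `δ(X)`, `δ(Y)` of `G` have at most one edge in common. -/
theorem result {V E : Type} [Fintype V] [Fintype E] (G : MGraph V E)
    (hG : G.IsSmallestCounterexample) (X Y : Finset V) (hX : G.IsCyclicFourCut X)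
    (hY : G.IsCyclicFourCut Y) (hne : G.cut X ≠ G.cut Y) :
    (G.cut X ∩ G.cut Y).card ≤ 1 :=
  G.cuts_share_one hG X Y hX hY hne

end Pool.Agent.Results.MP_b1bfa0_co.ShareOneEdge
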