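import Pool.Agent.CDFlow.Main

/-!
The sides of a cyclic 4-edge-cut in a smallest counterexample to the circuit double cover
conjecture: every flow on a side with values in `Z2 x Z2` has at least two zero edges.
-/

set_option autoImplicit false

namespace Pool.Agent.Results.MP_b1bfa0_co.StrongSides

open CDCut

open scoped Classical

/-- Let `G` be a smallest counterexample to the circuit double cover conjecture, let `δ(X)` be a
cyclic 4-edge-cut of `G`, and let `Y` be one of the two sides `X`, `V ∖ X`. If `P` and `Q` are sets
of edges such that every vertex of `Y` has even degree in `P` and in `Q`, then at least two of the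
edges having an end in `Y` lie neither in `P` nor in `Q`. -/
theorem result {V E : Type} [Fintype V] [Fintype E] (G : MGraph V E)
    (hG : G.IsSmallestCounterexample) (X : Finset V) (hX : G.IsCyclicFourCut X)
    (Y : Finset V) (hY : Y = X ∨ Y = Xᶜ) (P Q : Finset E)
    (hP : ∀ v ∈ Y, Even (G.deg P v)) (hQ : ∀ v ∈ Y, Even (G.deg Q v)) :
    2 ≤ (Finset.univ.filter fun e => G.Meets Y e ∧ e ∉ P ∧ e ∉ Q).card := by
  rcases hY with rfl | rfl
  · exact G.two_zeros hG _ hX P Q hP hQ
  · exact G.two_zeros hG _ (G.isCyclicFourCut_compl X hX) P Q hP hQ

end Pool.Agent.Results.MP_b1bfa0_co.StrongSides
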