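import Pool.Agent.CDCut.MainOne

/-!
The unique obstruction for a cyclic 4-edge-cut in a smallest counterexample to the circuit double
cover conjecture.
-/

set_option autoImplicit false

namespace Pool.Agent.Results.MP_b1bfa0_co.UniqueObstruction

open CDCut

open scoped Classical

/-- Let `G` be a smallest counterexample to the circuit double cover conjecture and let `δ(X)` be a
cyclic 4-edge-cut of `G`. Then the four edges of the cut can be named `a, b, c, d` such that one
of the two sides has exactly the cover types `00, 01, 02, 12`, and the other side has exactly the
cover types `11, 22, 33, 13, 23` and is not 3-edge-colourable. -/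
theorem result {V E : Type} [Fintype V] [Fintype E] (G : MGraph V E)
    (hG : G.IsSmallestCounterexample) (X : Finset V) (hX : G.IsCyclicFourCut X) :
    ∃ a b c d : E, [a, b, c, d].Nodup ∧ G.cut X = {a, b, c, d} ∧
      ((G.coverTypes X = typeS a b c d ∧ G.coverTypes Xᶜ = typeT a b c d ∧
          ¬ G.SideColourable Xᶜ) ∨
       (G.coverTypes X = typeT a b c d ∧ G.coverTypes Xᶜ = typeS a b c d ∧
          ¬ G.SideColourable X)) :=
  G.main_one hG X hX

end Pool.Agent.Results.MP_b1bfa0_co.UniqueObstruction
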